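import Pool.Agent.P8H92.KB.Stm3
import Pool.Agent.P8H65.KC.Aux1

/-!
# Project KB (helper92), third part: package TRF (from sets to functions; adapted from `P8H65.KC.trn` of helper65)
-/

set_option autoImplicit false

open Real MeasureTheory

namespace Pool.Agent.P8H52.KC

open Pool.Agent.P8H92.KB
open Pool.Agent.P8H65.KC (sum_fib int_fib mom_fib small_of)

lemma int_fibf {α U : Type} [MeasurableSpace α] [Fintype U] (P : Measure α)
    (Qm : α → U) (hQ : ∀ u, MeasurableSet (Qm ⁻¹' {u})) (g : α → ℝ) (hg : Integrable g P) :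
    ∑ u, ∫ y in Qm ⁻¹' {u}, g y ∂P = ∫ y, g y ∂P := by
  classical
  have e : (fun y => g y) = fun y => ∑ u, (Qm ⁻¹' {u}).indicator g y := by
    funext y
    rw [Finset.sum_eq_single (Qm y)]
    · rw [Set.indicator_of_mem (by rfl)]
    · intro u _ hu
      rw [Set.indicator_of_notMem]
      intro h
      exact hu (Eq.symm h)
    · intro h
      exact absurd (Finset.mem_univ _) h
  conv_rhs => rw [e]
  rw [integral_finsetSum _ (fun u _ => hg.indicator (hQ u))]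
  refine Finset.sum_congr rfl (fun u _ => ?_)
  rw [integral_indicator (hQ u)]

lemma pairsf {α U : Type} [MeasurableSpace α] [Fintype U] (P : Measure α) [IsProbabilityMeasure P]
    (g : α → ℝ) (hg : Integrable g P) (Qm : α → U) (hQ : ∀ u, MeasurableSet (Qm ⁻¹' {u}))
    (c : U → U → Prop) [∀ u w, Decidable (c u w)] :
    Integrable (Set.indicator {p : α × α | c (Qm p.1) (Qm p.2)} (fun p => g p.1 * g p.2)) (P.prod P) ∧
    ∑ u, ∑ w, (if c u w then (∫ y in Qm ⁻¹' {u}, g y ∂P) * (∫ y in Qm ⁻¹' {w}, g y ∂P) else 0) =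
      ∫ p, Set.indicator {p : α × α | c (Qm p.1) (Qm p.2)} (fun p => g p.1 * g p.2) p ∂(P.prod P) := by
  classical
  have e : (Set.indicator {p : α × α | c (Qm p.1) (Qm p.2)} (fun p => g p.1 * g p.2)) =
      fun p => ∑ v ∈ (Finset.univ : Finset (U × U)).filter (fun v => c v.1 v.2),
        ((Qm ⁻¹' {v.1}) ×ˢ (Qm ⁻¹' {v.2})).indicator (fun p : α × α => g p.1 * g p.2) p := by
    funext p
    by_cases hc : c (Qm p.1) (Qm p.2)
    · rw [Set.indicator_of_mem (show p ∈ {p : α × α | c (Qm p.1) (Qm p.2)} from hc),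
        Finset.sum_eq_single (Qm p.1, Qm p.2)]
      · rw [Set.indicator_of_mem]
        exact ⟨rfl, rfl⟩
      · intro v _ hv
        rw [Set.indicator_of_notMem]
        rintro ⟨h1, h2⟩
        have h3 : Qm p.1 = v.1 := h1
        have h4 : Qm p.2 = v.2 := h2
        exact hv (Prod.ext h3.symm h4.symm)
      · intro h
        exact h (show (Qm p.1, Qm p.2) ∈ (Finset.univ : Finset (U × U)).filter (fun v => c v.1 v.2) from
          Finset.mem_filter.2 ⟨Finset.mem_univ _, hc⟩) |>.elim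
    · rw [Set.indicator_of_notMem (show p ∉ {p : α × α | c (Qm p.1) (Qm p.2)} from hc)]
      symm
      apply Finset.sum_eq_zero
      intro v hv
      rw [Set.indicator_of_notMem]
      rintro ⟨h1, h2⟩
      have h3 : Qm p.1 = v.1 := h1
      have h4 : Qm p.2 = v.2 := h2
      have h5 := (Finset.mem_filter.1 hv).2
      rw [← h3, ← h4] at h5
      exact hc h5
  have hgg : Integrable (fun p : α × α => g p.1 * g p.2) (P.prod P) := hg.mul_prod hg
  have hi : ∀ v : U × U, Integrable (((Qm ⁻¹' {v.1}) ×ˢ (Qm ⁻¹' {v.2})).indicator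
      (fun p : α × α => g p.1 * g p.2)) (P.prod P) := fun v => hgg.indicator ((hQ _).prod (hQ _))
  rw [e]
  refine ⟨integrable_finsetSum _ (fun v _ => hi v), ?_⟩
  rw [integral_finsetSum _ (fun v _ => hi v), Finset.sum_filter, Fintype.sum_prod_type]
  refine Finset.sum_congr rfl (fun u _ => Finset.sum_congr rfl (fun w _ => ?_))
  by_cases h : c u w
  · rw [if_pos h, if_pos h, integral_indicator ((hQ _).prod (hQ _)), setIntegral_prod_mul]
  · rw [if_neg h, if_neg h]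

/-- the set of the pairs with a small angle is measurable -/
lemma meas_small {ι : Type} [Fintype ι] {k : ι → ℕ} (θ : ℝ) :
    MeasurableSet {p : (∀ i, EuclideanSpace ℝ (Fin (k i))) × (∀ i, EuclideanSpace ℝ (Fin (k i))) |
      SmallAng θ p.1 p.2} := by
  unfold SmallAng
  apply measurableSet_lt
  · refine Measurable.mul measurable_const (Measurable.mul ?_ ?_)
    · refine (Finset.measurable_sum _ (fun i _ => ?_)).sqrt
      exact (((measurable_pi_apply i).comp measurable_fst).norm).pow_const 2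
    · refine (Finset.measurable_sum _ (fun i _ => ?_)).sqrt
      exact (((measurable_pi_apply i).comp measurable_snd).norm).pow_const 2
  · refine Finset.measurable_sum _ (fun i _ => ?_)
    exact ((measurable_pi_apply i).comp measurable_fst).inner ((measurable_pi_apply i).comp measurable_snd)

/-- **TRF.** -/
theorem trf (hd : S_DIS) (hq : S_QUA) : S_FUN := by
  classical
  intro θ δ hθ hθ2 hδ
  obtain ⟨ρ, ε, hρ, hε, hmain⟩ := hd θ δ hθ hθ2 hδ
  refine ⟨ρ / 4, by positivity, ?_⟩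
  intro ι _ k μ _ R hR hv hRv g hgm hg0 hg1 hPD
  have hR0 : ∀ i, 0 ≤ R i := fun i => by
    obtain ⟨y, hy⟩ := (hR i).exists
    exact (sq_nonneg _).trans hy
  have hcos : 0 ≤ Real.cos θ :=
    Real.cos_nonneg_of_mem_Icc ⟨by linarith [pi_pos], hθ2.le⟩
  obtain ⟨v, hvd⟩ : ∃ v, v = ∑ i, ∫ y, ‖y‖ ^ 2 ∂(μ i) := ⟨_, rfl⟩
  rw [← hvd] at hv hRv hPD
  obtain ⟨S, hS⟩ : ∃ S, S = ∑ i, √(R i) := ⟨_, rfl⟩
  have hS0 : 0 ≤ S := by
    rw [hS]
    exact Finset.sum_nonneg (fun i _ => Real.sqrt_nonneg _)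
  have hm0 : 0 < min ε 1 := lt_min hε one_pos
  obtain ⟨η, hη⟩ : ∃ η, η = min ε 1 * v / (16 * (1 + S)) := ⟨_, rfl⟩
  have hη0 : 0 < η := by
    rw [hη]
    positivity
  have hη1 : 16 * (η * (1 + S)) = min ε 1 * v := by
    rw [hη]
    field_simp
  have hηS : 16 * (η * S) ≤ min ε 1 * v := by
    have := mul_pos hη0 one_pos
    nlinarith
  have hηε : 16 * (η * S) ≤ ε * v :=
    hηS.trans (mul_le_mul_of_nonneg_right (min_le_left _ _) hv.le)
  have hηv : 16 * (η * S) ≤ v := by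
    refine hηS.trans ?_
    have := mul_le_mul_of_nonneg_right (min_le_right ε 1) hv.le
    linarith
  choose A fA x q q1 q2 q3 q4 using fun i => hq (k i) (μ i) (R i) η (hR i) hη0
  obtain ⟨ν, hν⟩ : ∃ ν : ∀ i, A i → ℝ, ν = fun i a => (μ i).real (q i ⁻¹' {a}) := ⟨_, rfl⟩
  have hνp : ∀ i a, 0 < ν i a := by
    rw [hν]
    exact q2
  have hν1 : ∀ i, ∑ a, ν i a = 1 := by
    intro i
    have h := sum_fib (μ i) Set.univ (q i) (q1 i)
    simp only [Set.univ_inter, probReal_univ] at h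
    rw [hν]
    exact h
  have hvv : |vB x ν - v| ≤ 2 * (η * S) := by
    have e : vB x ν - v = ∑ i, (∑ a, (μ i).real (q i ⁻¹' {a}) * ‖x i a‖ ^ 2 -
        ∫ y, ‖y‖ ^ 2 ∂(μ i)) := by
      rw [Finset.sum_sub_distrib, hvd, hν]
      rfl
    rw [e]
    refine (Finset.abs_sum_le_sum_abs _ _).trans ?_
    rw [hS, Finset.mul_sum, Finset.mul_sum]
    refine Finset.sum_le_sum (fun i _ => ?_)
    refine (mom_fib (μ i) (R i) η (hR i) (x i) (q i) (q1 i) (q3 i) (q4 i)).trans (le_of_eq ?_)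
    ring
  have hv1 : v / 2 ≤ vB x ν := by
    have := (abs_le.1 hvv).1
    linarith
  have hv0 : 0 < vB x ν := by linarith
  obtain ⟨P, hP⟩ : ∃ P, P = Measure.pi μ := ⟨_, rfl⟩
  have iP : IsProbabilityMeasure P := by
    rw [hP]
    infer_instance
  have hgi : Integrable g P := by
    refine Integrable.of_bound hgm.aestronglyMeasurable 1 (Filter.Eventually.of_forall fun y => ?_)
    rw [Real.norm_eq_abs, abs_of_nonneg (hg0 y)]
    exact hg1 y
  obtain ⟨Qm, hQm⟩ : ∃ Qm : (∀ i, EuclideanSpace ℝ (Fin (k i))) → (∀ i, A i),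
      Qm = fun y i => q i (y i) := ⟨_, rfl⟩
  have hpre : ∀ u, Qm ⁻¹' {u} = Set.univ.pi (fun i => q i ⁻¹' {u i}) := by
    intro u
    ext y
    simp only [Set.mem_preimage, Set.mem_singleton_iff, Set.mem_pi, Set.mem_univ, true_imp_iff]
    rw [hQm]
    exact funext_iff
  have hQ : ∀ u, MeasurableSet (Qm ⁻¹' {u}) := by
    intro u
    rw [hpre]
    exact MeasurableSet.univ_pi (fun i => q1 i (u i))
  have hPQ : ∀ u, P.real (Qm ⁻¹' {u}) = ∏ i, ν i (u i) := by
    intro u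
    rw [hpre, hP, hν, measureReal_def, Measure.pi_pi, ENNReal.toReal_prod]
    rfl
  have hPQ0 : ∀ u : ∀ i, A i, 0 < ∏ i, ν i (u i) := fun u =>
    Finset.prod_pos (fun i _ => hνp i (u i))
  obtain ⟨d, hdd⟩ : ∃ d : (∀ i, A i) → ℝ,
      d = fun u => (∫ y in Qm ⁻¹' {u}, g y ∂P) / ∏ i, ν i (u i) := ⟨_, rfl⟩
  have hd1 : ∀ u, (∏ i, ν i (u i)) * d u = ∫ y in Qm ⁻¹' {u}, g y ∂P := by
    intro u
    rw [hdd]
    exact mul_div_cancel₀ _ (hPQ0 u).ne'
  have hd0 : ∀ u, 0 ≤ d u := by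
    intro u
    rw [hdd]
    exact div_nonneg (setIntegral_nonneg (hQ u) (fun y _ => hg0 y)) (hPQ0 u).le
  have hd2 : ∀ u, d u ≤ 1 := by
    intro u
    rw [hdd]
    show _ / _ ≤ (1 : ℝ)
    rw [div_le_one (hPQ0 u), ← hPQ]
    have h1 : ∫ y in Qm ⁻¹' {u}, g y ∂P ≤ ∫ y in Qm ⁻¹' {u}, (1 : ℝ) ∂P :=
      setIntegral_mono hgi.integrableOn (integrable_const (1 : ℝ)).integrableOn hg1
    refine h1.trans (le_of_eq ?_)
    rw [setIntegral_const, smul_eq_mul, mul_one]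
  have hsq : ρ / 4 * v ^ 2 ≤ ρ * vB x ν ^ 2 := by
    have h1 : (v / 2) ^ 2 ≤ vB x ν ^ 2 := by
      refine pow_le_pow_left₀ (by positivity) hv1 2
    nlinarith
  have hRR : 0 ≤ ∑ i, R i ^ 2 := Finset.sum_nonneg (fun i _ => sq_nonneg _)
  have hmass : rexp (-(ρ * (vB x ν ^ 2 / ∑ i, R i ^ 2))) ≤ ∑ u, (∏ i, ν i (u i)) * d u := by
    have h1 : ∑ u, (∏ i, ν i (u i)) * d u = ∫ y, g y ∂P := by
      rw [← int_fibf P Qm hQ g hgi]
      exact Finset.sum_congr rfl (fun u _ => hd1 u)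
    rw [h1, hP]
    refine le_trans (exp_le_exp.2 ?_) hPD
    rw [neg_le_neg_iff, ← mul_div_assoc, ← mul_div_assoc]
    exact div_le_div_of_nonneg_right hsq hRR
  have h := hmain ι k A x ν R hνp hν1 q3 hv0 (hRv.trans hsq) d hd0 hd2 hmass
  refine h.trans ?_
  have e : ∀ u w : (∀ i, A i), (∏ i, ν i (u i)) * (∏ i, ν i (w i)) * (d u * d w) =
      (∫ y in Qm ⁻¹' {u}, g y ∂P) * (∫ y in Qm ⁻¹' {w}, g y ∂P) := by
    intro u w
    rw [← hd1 u, ← hd1 w]
    ring
  simp only [e]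
  obtain ⟨h2i, h2⟩ := pairsf P g hgi Qm hQ (fun u w => ε * vB x ν < ∑ i, (inner ℝ (x i (u i)) (x i (w i)) -
          Real.cos θ * (‖x i (u i)‖ ^ 2 + ‖x i (w i)‖ ^ 2) / 2))
  refine h2.le.trans ?_
  rw [← hP]
  have hae1 : ∀ᵐ y ∂P, ∀ i, ‖y i‖ ^ 2 ≤ R i ∧ ‖y i - x i (q i (y i))‖ ≤ η := by
    rw [hP, ae_all_iff]
    intro i
    exact (Measure.tendsto_eval_ae_ae (μ := μ) (i := i)).eventually ((hR i).and (q4 i))
  have hae : ∀ᵐ p ∂(P.prod P), (∀ i, ‖p.1 i‖ ^ 2 ≤ R i ∧ ‖p.1 i - x i (q i (p.1 i))‖ ≤ η) ∧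
      (∀ i, ‖p.2 i‖ ^ 2 ≤ R i ∧ ‖p.2 i - x i (q i (p.2 i))‖ ≤ η) :=
    (Measure.quasiMeasurePreserving_fst.ae hae1).and (Measure.quasiMeasurePreserving_snd.ae hae1)
  refine integral_mono_ae h2i ((hgi.mul_prod hgi).indicator (meas_small θ)) ?_
  filter_upwards [hae] with p hp
  have hpos : 0 ≤ g p.1 * g p.2 := mul_nonneg (hg0 _) (hg0 _)
  by_cases t3 : p ∈ {p : (∀ i, EuclideanSpace ℝ (Fin (k i))) × (∀ i, EuclideanSpace ℝ (Fin (k i))) |
      ε * vB x ν < ∑ i, (inner ℝ (x i (Qm p.1 i)) (x i (Qm p.2 i)) -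
          Real.cos θ * (‖x i (Qm p.1 i)‖ ^ 2 + ‖x i (Qm p.2 i)‖ ^ 2) / 2)}
  · rw [Set.indicator_of_mem t3, Set.indicator_of_mem]
    change SmallAng θ p.1 p.2
    rw [Set.mem_ofPred_eq, hQm] at t3
    refine small_of θ hcos R η p.1 p.2 (fun i => x i (q i (p.1 i))) (fun i => x i (q i (p.2 i)))
      (fun i => (hp.1 i).1) (fun i => (hp.2 i).1) (fun i => q3 i _) (fun i => q3 i _)
      (fun i => (hp.1 i).2) (fun i => (hp.2 i).2) (lt_of_lt_of_le' t3 ?_)
    rw [← hS]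
    have h5 : ε * (v / 2) ≤ ε * vB x ν := mul_le_mul_of_nonneg_left hv1 hε.le
    have h6 : 0 < ε * v := mul_pos hε hv
    linarith
  · rw [Set.indicator_of_notMem t3]
    exact Set.indicator_nonneg (fun p _ => mul_nonneg (hg0 _) (hg0 _)) p

end Pool.Agent.P8H52.KC
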